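import Pool.Agent.H789R2.AN.Tr

/-!
# Attractor-repeller pairs and factors
-/

set_option autoImplicit false

open Filter Topology Set Metric

namespace Pool.Agent.W733.FT

open Pool.Agent.H789R2.AN

variable {X : Type*} [MetricSpace X]

/-- `A` is Lyapunov stable. -/
def Stab (f : X ≃ₜ X) (A : Set X) : Prop :=
  ∀ ε > 0, ∃ δ > 0, ∀ x ∈ A, ∀ y, dist y x < δ → ∀ n : ℕ, ∃ z ∈ A, dist (f^[n] y) z < ε

theorem stab_of_att {g : X ≃ₜ X} {c : ℝ} (h : LP g c) {A : Set X} (hA : IsAtt g A) :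
    Stab g A := by
  intro ε hε
  obtain ⟨δ, hδ, h1⟩ := h.lp (min c (ε / 2)) (lt_min h.c_pos (half_pos hε))
  refine ⟨δ, hδ, fun x hx y hxy n => ?_⟩
  obtain ⟨z, h2, h3⟩ := h1 y x hxy
  have hz : z ∈ A := hA.sat x hx z (WS.of_SR (h.cU _ _ (h3.mono (min_le_left _ _))))
  refine ⟨g^[n] z, (inv_iter hA.inv n z).mpr hz, ?_⟩
  have h5 := h2 n
  have h4 : min c (ε / 2) ≤ ε / 2 := min_le_right _ _
  linarith

theorem unif_iter [CompactSpace X] (f : X ≃ₜ X) (N : ℕ) (ε : ℝ) (hε : 0 < ε) :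
    ∃ δ > 0, ∀ r ≤ N, ∀ x y, dist x y < δ → dist (f^[r] x) (f^[r] y) < ε := by
  induction N with
  | zero =>
    refine ⟨ε, hε, fun r hr x y hxy => ?_⟩
    obtain rfl : r = 0 := by omega
    exact hxy
  | succ N ih =>
    obtain ⟨δ, hδ, h1⟩ := ih
    have hc : UniformContinuous (f^[N + 1]) :=
      CompactSpace.uniformContinuous_of_continuous (f.continuous.iterate _)
    rw [Metric.uniformContinuous_iff] at hc
    obtain ⟨δ', hδ', h2⟩ := hc ε hε
    refine ⟨min δ δ', lt_min hδ hδ', fun r hr x y hxy => ?_⟩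
    rcases Nat.lt_or_ge r (N + 1) with h3 | h3
    · exact h1 r (by omega) x y (hxy.trans_le (min_le_left _ _))
    · obtain rfl : r = N + 1 := by omega
      exact h2 (hxy.trans_le (min_le_right _ _))

theorem stab_root [CompactSpace X] {f g : X ≃ₜ X} {N : ℕ} (hN : 1 ≤ N) (hg : ∀ x, g x = f^[N] x)
    {A : Set X} (hA : ∀ x, f x ∈ A ↔ x ∈ A) (hs : Stab g A) : Stab f A := by
  intro ε hε
  obtain ⟨ε₁, hε₁, h1⟩ := unif_iter f N ε hε
  obtain ⟨δ, hδ, h2⟩ := hs ε₁ hε₁
  refine ⟨δ, hδ, fun x hx y hxy n => ?_⟩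
  obtain ⟨z, hz, h3⟩ := h2 x hx y hxy (n / N)
  refine ⟨f^[n % N] z, (inv_iter hA _ z).mpr hz, ?_⟩
  have h4 := h1 (n % N) (Nat.mod_lt _ (by omega)).le _ _ h3
  have h5 : f^[n] y = f^[n % N] (g^[n / N] y) := by
    have h6 : (g : X → X) = f^[N] := funext hg
    rw [h6, ← Function.iterate_mul, ← Function.iterate_add_apply, Nat.mod_add_div]
  rwa [h5]

/-- An attractor-repeller pair of `f`. -/
structure Pair (f : X ≃ₜ X) (A R : Set X) : Prop where
  closedA : IsClosed A
  closedR : IsClosed R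
  neA : A.Nonempty
  neR : R.Nonempty
  disj : Disjoint A R
  invA : ∀ x, f x ∈ A ↔ x ∈ A
  stabA : Stab f A
  stabR : Stab f.symm R
  attr : ∀ x, x ∉ R → ∀ ε > 0, ∃ n : ℕ, ∃ z ∈ A, dist (f^[n] x) z < ε

theorem subsingleton_of_id [ConnectedSpace X] {g : X ≃ₜ X} {c : ℝ} (h : LP g c)
    (hg : ∀ x, g x = x) : Subsingleton X := by
  have h0 : ∀ (n : ℕ) (x : X), g^[n] x = x := by
    intro n
    induction n with
    | zero => intro x; rfl
    | succ n ih => intro x; rw [Function.iterate_succ_apply', ih, hg]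
  have h1 : ∀ x y : X, dist x y ≤ c → x = y := by
    intro x y hxy
    have h2 := h.cS x y (fun k => by rw [h0, h0]; exact hxy)
    have h3 : Tendsto (fun n : ℕ => c * (1 / 2 : ℝ) ^ n) atTop (𝓝 0) := by
      have := (tendsto_pow_atTop_nhds_zero_of_lt_one (by norm_num : (0:ℝ) ≤ 1 / 2)
        (by norm_num)).const_mul c
      simpa using this
    have h4 : dist x y ≤ 0 := by
      refine ge_of_tendsto' h3 fun n => ?_
      have := h2 n
      rwa [h0, h0] at this
    exact dist_le_zero.mp h4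
  have h2 : ∀ x : X, ({x} : Set X) = univ := by
    intro x
    refine IsClopen.eq_univ ⟨isClosed_singleton, ?_⟩ (singleton_nonempty x)
    rw [Metric.isOpen_iff]
    intro y hy
    rw [mem_singleton_iff] at hy
    subst hy
    refine ⟨c, h.c_pos, fun z hz => ?_⟩
    rw [Metric.mem_ball] at hz
    exact h1 z y hz.le
  refine ⟨fun x y => ?_⟩
  have h3 : y ∈ ({x} : Set X) := by rw [h2 x]; trivial
  exact h3.symm

/-- If `f` has no attractor-repeller pair, then the whole space is the only attractor. -/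
theorem exists_pair [CompactSpace X] [ConnectedSpace X] {f g : X ≃ₜ X} {N : ℕ}
    (hg : ∀ x, g x = f^[N] x) {c : ℝ} (h : LP g c) {B : Set X} (hB : IsAtt g B)
    (hBu : B ≠ univ) : ∃ A R : Set X, Pair f A R := by
  rcases Nat.eq_zero_or_pos N with hN | hN
  · subst hN
    have := subsingleton_of_id h hg
    obtain ⟨b, hb⟩ := hB.nonempty
    exact absurd (eq_univ_of_forall fun x => Subsingleton.elim b x ▸ hb) hBu
  have hc : ∀ x, f (g x) = g (f x) := by
    intro x
    rw [hg, hg, ← Function.iterate_succ_apply' f, Function.iterate_succ_apply]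
  -- the union of the minimal attractors
  obtain ⟨hTatt, hTinv⟩ := tot_att (φ := f) h hc
  by_cases hT : Tot g = univ
  · exfalso
    apply hBu
    obtain ⟨C, hCB, hC⟩ := exists_minAtt hB
    have h2 : C = univ := by
      refine IsClopen.eq_univ ⟨hC.1.closed, ?_⟩ hC.1.nonempty
      obtain ⟨δ, hδ, hsep⟩ := h.sep
      rw [Metric.isOpen_iff]
      intro x hx
      refine ⟨δ, hδ, fun y hy => ?_⟩
      have hyT : y ∈ Tot g := by rw [hT]; trivial
      obtain ⟨D, hD, hyD⟩ := hyT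
      rw [Metric.mem_ball, dist_comm] at hy
      rw [hsep C D hC hD ⟨x, hx, y, hyD, hy⟩]
      exact hyD
    exact univ_subset_iff.mp (h2 ▸ hCB)
  · set A := Tot g with hAdef
    obtain ⟨z, hz⟩ : ∃ z, z ∉ A := by
      by_contra hcon
      push Not at hcon
      exact hT (eq_univ_of_forall hcon)
    obtain ⟨w, hw, -⟩ := exists_repeller h hTatt hz
    set R : Set X := (Bas g A)ᶜ with hR
    have hRatt : IsAtt g.symm R := by
      refine ⟨(isOpen_bas h hTatt).isClosed_compl, ⟨w, hw⟩, ?_, ?_⟩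
      · intro x
        have h1 := bas_map (g := g) (φ := g) (fun _ => rfl) hTatt.inv (g.symm x)
        rw [g.apply_symm_apply] at h1
        rw [hR, mem_compl_iff, mem_compl_iff, h1]
      · intro x hx y hxy hy
        apply hx
        obtain ⟨z', hz', h3⟩ := hy
        exact ⟨z', hz', WS.trans hxy h3⟩
    have hRinv : ∀ x, f x ∈ R ↔ x ∈ R := by
      intro x
      rw [hR, mem_compl_iff, mem_compl_iff, bas_map hc hTinv]
    refine ⟨A, R, ⟨hTatt.closed, hRatt.closed, hTatt.nonempty, hRatt.nonempty, ?_, hTinv,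
      stab_root hN hg hTinv (stab_of_att h hTatt), ?_, ?_⟩⟩
    · rw [hR]
      exact disjoint_compl_right_iff_subset.mpr (subset_bas g A)
    · refine stab_root (f := f.symm) (g := g.symm) hN ?_ (inv_symm hRinv)
        (stab_of_att h.symm hRatt)
      intro x
      apply g.injective
      rw [g.apply_symm_apply, hg, iterR]
    · intro x hx ε hε
      have hx' : x ∈ Bas g A := by
        by_contra hcon
        exact hx hcon
      obtain ⟨z', hz', h3⟩ := hx'
      obtain ⟨m, hm⟩ := h3.eventually_lt hε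
      refine ⟨N * m, g^[m] z', (inv_iter hTatt.inv m z').mpr hz', ?_⟩
      have h6 : (g : X → X) = f^[N] := funext hg
      have h7 : f^[N * m] x = g^[m] x := by rw [h6, Function.iterate_mul]
      rw [h7]
      exact hm m le_rfl

/-- Points of the fibre over `p` outside a set `R`: the key step. -/
theorem key {f : X ≃ₜ X} {A R : Set X} (hAc : IsCompact A) (hRc : IsClosed R)
    (hne : A.Nonempty) (hd : Disjoint A R) (hs : Stab f A)
    {B : Type*} [TopologicalSpace B] [T2Space B] [CompactSpace X] (π : X → B) (hπ : Continuous π)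
    (hsemi : ∀ U : Set X, IsOpen U → U.Nonempty → (interior (π '' U)).Nonempty)
    (gB : B ≃ₜ B) (hsc : ∀ x, π (f x) = gB (π x))
    (htr : ∀ U V : Set B, IsOpen U → U.Nonempty → IsOpen V → V.Nonempty →
      ∃ n : ℕ, (gB^[n] '' U ∩ V).Nonempty)
    (p : B) (hp : π ⁻¹' {p} ⊆ R) : False := by
  obtain ⟨ρ, hρ, hρAR⟩ : ∃ ρ > 0, ∀ a ∈ A, ∀ r ∈ R, ρ ≤ dist a r := by
    obtain ⟨ρ, hρ, h1⟩ := exists_pos_forall_lt_edist hAc hRc hd
    refine ⟨ρ, by exact_mod_cast hρ, fun a ha r hr => ?_⟩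
    have h2 := (h1 a ha r hr).le
    rw [edist_dist, ← ENNReal.ofReal_coe_nnreal,
      ENNReal.ofReal_le_ofReal_iff dist_nonneg] at h2
    exact h2
  obtain ⟨δ, hδ, hst⟩ := hs (ρ / 3) (by positivity)
  -- the neighbourhood of `A`
  set U : Set X := {y | ∃ x ∈ A, dist y x < δ} with hU
  have hUo : IsOpen U := by
    have : U = ⋃ x ∈ A, ball x δ := by
      ext y
      simp [hU, Metric.mem_ball]
    rw [this]
    exact isOpen_biUnion fun x _ => isOpen_ball
  have hUn : U.Nonempty := by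
    obtain ⟨a, ha⟩ := hne
    exact ⟨a, a, ha, by rw [dist_self]; exact hδ⟩
  -- the neighbourhood of `R`
  set V : Set X := {y | ∃ x ∈ R, dist y x < ρ / 3} with hV
  have hVo : IsOpen V := by
    have : V = ⋃ x ∈ R, ball x (ρ / 3) := by
      ext y
      simp [hV, Metric.mem_ball]
    rw [this]
    exact isOpen_biUnion fun x _ => isOpen_ball
  set Q : Set B := (π '' Vᶜ)ᶜ with hQ
  have hQo : IsOpen Q := by
    have h1 : IsClosed (π '' Vᶜ) :=
      (hVo.isClosed_compl.isCompact.image hπ).isClosed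
    exact h1.isOpen_compl
  have hpQ : p ∈ Q := by
    rintro ⟨x, hx, hxp⟩
    apply hx
    exact ⟨x, hp hxp, by rw [dist_self]; positivity⟩
  obtain ⟨n, b, ⟨b', hb', hbb⟩, hbQ⟩ := htr (interior (π '' U)) Q isOpen_interior
    (hsemi U hUo hUn) hQo ⟨p, hpQ⟩
  obtain ⟨x, ⟨a, ha, hxa⟩, hxb⟩ := interior_subset hb'
  have hit : ∀ n : ℕ, π (f^[n] x) = gB^[n] (π x) := by
    intro n
    induction n with
    | zero => rfl
    | succ n ih => rw [Function.iterate_succ_apply', Function.iterate_succ_apply', hsc, ih]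
  obtain ⟨z, hz, h1⟩ := hst a ha x hxa n
  have h2 : f^[n] x ∈ V := by
    by_contra hcon
    apply hbQ
    refine ⟨f^[n] x, hcon, ?_⟩
    rw [hit, hxb, hbb]
  obtain ⟨r, hr, h3⟩ := h2
  have h4 := hρAR z hz r hr
  have h5 := dist_triangle z (f^[n] x) r
  rw [dist_comm z (f^[n] x)] at h5
  linarith

/-- **Factor theorem, topological form.** -/
theorem no_pair [CompactSpace X] {f : X ≃ₜ X} {A R : Set X} (hP : Pair f A R)
    {B : Type*} [TopologicalSpace B] [T2Space B] (π : X → B) (hπ : Continuous π)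
    (hsemi : ∀ U : Set X, IsOpen U → U.Nonempty → (interior (π '' U)).Nonempty)
    (gB : B ≃ₜ B) (hsc : ∀ x, π (f x) = gB (π x))
    (htr : ∀ U V : Set B, IsOpen U → U.Nonempty → IsOpen V → V.Nonempty →
      ∃ n : ℕ, (gB^[n] '' U ∩ V).Nonempty)
    (p : B) (K : Set X) (hpK : π ⁻¹' {p} ⊆ K) (hKinv : ∀ x ∈ K, f x ∈ K)
    (hK : ∀ U V : Set X, IsOpen U → (U ∩ K).Nonempty → IsOpen V → (V ∩ K).Nonempty →
      ∃ n : ℕ, (f^[n] '' (U ∩ K) ∩ V).Nonempty) : False := by
  have hit : ∀ (x : X) (n : ℕ), x ∈ K → f^[n] x ∈ K := by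
    intro x n hx
    induction n with
    | zero => exact hx
    | succ n ih => rw [Function.iterate_succ_apply']; exact hKinv _ ih
  -- the fibre over `p` is not contained in `R`
  have h1 : ¬ π ⁻¹' {p} ⊆ R := fun h =>
    key hP.closedA.isCompact hP.closedR hP.neA hP.disj hP.stabA π hπ hsemi gB hsc htr p h
  obtain ⟨k, hk, hkR⟩ := not_subset.mp h1
  -- the set `K` is contained in `A`
  have h2 : K ⊆ A := by
    intro y hy
    by_contra hyA
    have hη : 0 < infDist y A := (hP.closedA.notMem_iff_infDist_pos hP.neA).mp hyA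
    obtain ⟨δ, hδ, hst⟩ := hP.stabA (infDist y A / 2) (half_pos hη)
    obtain ⟨n, z, hz, h3⟩ := hP.attr k hkR δ hδ
    set U : Set X := {y | ∃ x ∈ A, dist y x < δ} with hU
    have hUo : IsOpen U := by
      have : U = ⋃ x ∈ A, ball x δ := by
        ext y
        simp [hU, Metric.mem_ball]
      rw [this]
      exact isOpen_biUnion fun x _ => isOpen_ball
    set V : Set X := {w | infDist y A / 2 < infDist w A} with hV
    have hVo : IsOpen V := isOpen_lt continuous_const (continuous_infDist_pt A)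
    obtain ⟨m, w', ⟨w, ⟨⟨a, ha, hwa⟩, -⟩, rfl⟩, hw'⟩ := hK U V hUo
      ⟨f^[n] k, ⟨z, hz, h3⟩, hit k n (hpK hk)⟩ hVo
      ⟨y, by rw [hV]; exact half_lt_self hη, hy⟩
    obtain ⟨z', hz', h4⟩ := hst a ha w hwa m
    have h5 : infDist (f^[m] w) A ≤ dist (f^[m] w) z' := infDist_le_dist_of_mem hz'
    have h6 : infDist y A / 2 < infDist (f^[m] w) A := hw'
    linarith
  -- the reversed argument
  refine key (f := f.symm) hP.closedR.isCompact hP.closedA hP.neR hP.disj.symm hP.stabR π hπ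
    hsemi gB.symm ?_ ?_ p (hpK.trans h2)
  · intro x
    apply gB.injective
    rw [gB.apply_symm_apply, ← hsc, f.apply_symm_apply]
  · intro U V hU hUn hV hVn
    obtain ⟨n, b, ⟨b', hb', hbb⟩, hbU⟩ := htr V U hV hVn hU hUn
    refine ⟨n, b', ⟨b, hbU, ?_⟩, hb'⟩
    rw [← hbb]
    exact (Function.LeftInverse.iterate gB.symm_apply_apply n) b'

end Pool.Agent.W733.FT
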