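import Pool.Agent.H789R2.AN.Man
import Pool.Agent.H789R2.AN.Hyp
import Pool.Agent.W733.FT.Top

/-!
# Factors of Anosov diffeomorphisms, manifold form
-/

set_option autoImplicit false

open scoped Manifold ContDiff Topology
open Filter Topology Set Metric

namespace Pool.Agent.W733.FT

open Pool.Agent.H721R2 Pool.Agent.H789R2.AN

/-- The map `f` is topologically transitive on the set `K`. -/
def TransitiveOn {M : Type*} [TopologicalSpace M] (f : M → M) (K : Set M) : Prop :=
  ∀ U V : Set M, IsOpen U → IsOpen V → (U ∩ K).Nonempty → (V ∩ K).Nonempty →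
    ∃ n : ℕ, (f^[n] '' (U ∩ K) ∩ (V ∩ K)).Nonempty

/-- The map `π` is semi-open: images of nonempty open sets have nonempty interior. -/
def SemiOpen {M B : Type*} [TopologicalSpace M] [TopologicalSpace B] (π : M → B) : Prop :=
  ∀ U : Set M, IsOpen U → U.Nonempty → (interior (π '' U)).Nonempty

theorem main {E : Type*} [NormedAddCommGroup E] [NormedSpace ℝ E]
    [FiniteDimensional ℝ E] {M : Type*} [TopologicalSpace M] [T2Space M] [CompactSpace M]
    [ConnectedSpace M] [ChartedSpace E M] [IsManifold 𝓘(ℝ, E) ∞ M]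
    (f : Diffeomorph 𝓘(ℝ, E) 𝓘(ℝ, E) M M 1)
    (Es Eu : ∀ x : M, Submodule ℝ (TangentSpace 𝓘(ℝ, E) x)) (hA : IsAnosov f Es Eu)
    {B : Type*} [TopologicalSpace B] [T2Space B] (π : M → B) (hπ : Continuous π)
    (hsemi : SemiOpen π) (g : B ≃ₜ B) (hsc : ∀ x, π (f x) = g (π x)) (hg : TopTransitive g)
    (p : B) (K : Set M) (hpK : π ⁻¹' {p} ⊆ K) (hKinv : ∀ x ∈ K, f x ∈ K)
    (hK : TransitiveOn f K) : TopTransitive f := by
  obtain ⟨m, e, he, hemb, hinj⟩ := exists_embedding_euclidean_of_compact (I := 𝓘(ℝ, E)) (M := M)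
  let _ : MetricSpace M := hemb.isEmbedding.comapMetricSpace e
  have hiso : ∀ x y : M, dist x y = ‖e x - e y‖ := fun x y => dist_eq_norm (e x) (e y)
  have he1 : ContMDiff 𝓘(ℝ, E) (𝓡 m) 1 e := he.of_le (by simp)
  obtain ⟨N, S, hS, -, -, -⟩ := exists_sys hiso he1 hinj f Es Eu hA
  have hgi : ∀ x, S.g x = f.toHomeomorph^[N] x := fun x => by
    rw [hS]; rfl
  obtain ⟨c, hc⟩ := exists_LP S
  by_contra hnt
  have hB : ∃ A, IsAtt S.g A ∧ A ≠ univ := by
    by_contra hcon
    apply hnt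
    intro U V hU hUn hV hVn
    obtain ⟨k, hk⟩ := transitive_of_unique hc
      (fun A hA => by
        by_contra h2
        exact hcon ⟨A, hA, h2⟩) U V hU hUn hV hVn
    refine ⟨N * k, ?_⟩
    have h1 : S.g^[k] = f^[N * k] := by
      rw [Function.iterate_mul]
      congr 1
      exact funext hgi
    rw [h1] at hk
    exact hk
  obtain ⟨A, hA, hAu⟩ := hB
  obtain ⟨A', R, hP⟩ := exists_pair (f := f.toHomeomorph) hgi hc hA hAu
  refine no_pair hP π hπ hsemi g hsc hg p K hpK hKinv ?_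
  intro U V hU hUn hV hVn
  obtain ⟨n, y, hy1, hy2⟩ := hK U V hU hV hUn hVn
  exact ⟨n, y, hy1, hy2.1⟩

end Pool.Agent.W733.FT
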